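import Mathlib
import Pool.Agent.Helper56.Koszul.Defs

/-!
KZ-1: gluing linear presentations along a coordinate projection.
-/

namespace Pool.Agent.Helper8.KZ

open Pool.Agent.Helper56.Koszul

universe u

theorem mem_Ker {S : Type u} [CommRing S] {κ ι : Type} [Fintype κ] (v : κ → ι → S)
    (f : κ → S) : f ∈ Ker v ↔ ∀ i, ∑ j, f j * v j i = 0 := Iff.rfl

/-- linear images: a linear map injective on `N` which preserves entries in `S1` -/
theorem Lin.map {S : Type u} [CommRing S] (S1 : AddSubgroup S) (n : ℕ) {ι ι' : Type}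
    (N : Submodule S (ι → S)) (Θ : (ι → S) →ₗ[S] (ι' → S))
    (hinj : ∀ f ∈ N, Θ f = 0 → f = 0)
    (hS1 : ∀ f ∈ N, (∀ i, f i ∈ S1) → ∀ i, Θ f i ∈ S1)
    (h : Lin S1 n ι N) : Lin S1 n ι' (N.map Θ) := by
  have hspan : ∀ {κ : Type} (v : κ → ι → S), Submodule.span S (Set.range v) = N →
      Submodule.span S (Set.range fun j => Θ (v j)) = N.map Θ := by
    intro κ v hv
    rw [← hv, Submodule.map_span, ← Set.range_comp]
    rfl
  have hmem : ∀ {κ : Type} (v : κ → ι → S), Submodule.span S (Set.range v) = N →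
      ∀ j, v j ∈ N := by
    intro κ v hv j
    rw [← hv]
    exact Submodule.subset_span ⟨j, rfl⟩
  cases n with
  | zero =>
    obtain ⟨κ, _, v, h1, h2⟩ := h
    exact ⟨κ, inferInstance, fun j => Θ (v j), fun j => hS1 _ (hmem v h2 j) (h1 j), hspan v h2⟩
  | succ n =>
    obtain ⟨κ, _, v, h1, h2, h3⟩ := h
    refine ⟨κ, inferInstance, fun j => Θ (v j), fun j => hS1 _ (hmem v h2 j) (h1 j),
      hspan v h2, ?_⟩
    have hK : Ker (fun j => Θ (v j)) = Ker v := by
      ext f
      rw [mem_Ker, mem_Ker]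
      have e1 : Θ (∑ j, f j • v j) = ∑ j, f j • Θ (v j) := by
        rw [map_sum]
        simp
      have e2 : ∑ j, f j • v j ∈ N :=
        Submodule.sum_mem _ fun j _ => N.smul_mem _ (hmem v h2 j)
      constructor
      · intro hf i
        have e3 : Θ (∑ j, f j • v j) = 0 := by
          rw [e1]
          funext i'
          simpa using hf i'
        have e4 := hinj _ e2 e3
        simpa using congrFun e4 i
      · intro hf i'
        have e3 : ∑ j, f j • v j = 0 := by
          funext i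
          simpa using hf i
        rw [e3, map_zero] at e1
        have := congrFun e1 i'
        simpa using this.symm
    rw [hK]
    exact h3

/-- extension by zero along `Sum.inl` -/
def inlMap (S : Type u) [CommRing S] (κ₁ κ₂ : Type) : (κ₁ → S) →ₗ[S] (κ₁ ⊕ κ₂ → S) where
  toFun a := Sum.elim a 0
  map_add' a b := by
    funext s
    cases s <;> simp
  map_smul' c a := by
    funext s
    cases s <;> simp

theorem inlMap_inl {S : Type u} [CommRing S] {κ₁ κ₂ : Type} (a : κ₁ → S) (j : κ₁) :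
    inlMap S κ₁ κ₂ a (Sum.inl j) = a j := rfl

theorem inlMap_inr {S : Type u} [CommRing S] {κ₁ κ₂ : Type} (a : κ₁ → S) (j : κ₂) :
    inlMap S κ₁ κ₂ a (Sum.inr j) = 0 := rfl

/-- generators of the glued module -/
theorem glue_gen {S : Type u} [CommRing S] (D : GrData S) {ι ι₂ : Type} (e : ι₂ → ι)
    (N N₁ : Submodule S (ι → S)) (N₂ : Submodule S (ι₂ → S))
    (hp : ∀ f ∈ N, (fun i => D.p1 (f i)) ∈ N)
    (hN₁ : ∀ f, f ∈ N₁ ↔ f ∈ N ∧ ∀ i, f (e i) = 0)
    (hN₂ : ∀ y, y ∈ N₂ ↔ ∃ f ∈ N, (fun i => f (e i)) = y)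
    {κ₁ κ₂ : Type} [Fintype κ₁] [Fintype κ₂] (v : κ₁ → ι → S) (w : κ₂ → ι₂ → S)
    (hvs : Submodule.span S (Set.range v) = N₁)
    (hw1 : ∀ j i, w j i ∈ D.S1) (hws : Submodule.span S (Set.range w) = N₂) :
    ∃ u : κ₂ → ι → S, (∀ j i, u j i ∈ D.S1) ∧ (∀ j, u j ∈ N) ∧ (∀ j i, u j (e i) = w j i) ∧
      Submodule.span S (Set.range (Sum.elim v u)) = N := by
  have hw : ∀ j, ∃ f ∈ N, (fun i => f (e i)) = w j := by
    intro j
    rw [← hN₂, ← hws]
    exact Submodule.subset_span ⟨j, rfl⟩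
  choose f hfN hfe using hw
  have hu : ∀ j i, D.p1 (f j (e i)) = w j i := by
    intro j i
    have : f j (e i) = w j i := congrFun (hfe j) i
    rw [this]
    exact D.p1_of_mem _ (hw1 j i)
  refine ⟨fun j i => D.p1 (f j i), fun j i => D.p1_mem _, fun j => hp _ (hfN j), hu, ?_⟩
  apply le_antisymm
  · rw [Submodule.span_le]
    rintro _ ⟨s, rfl⟩
    cases s with
    | inl j =>
      have : v j ∈ N₁ := by
        rw [← hvs]
        exact Submodule.subset_span ⟨j, rfl⟩
      exact ((hN₁ _).1 this).1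
    | inr j => exact hp _ (hfN j)
  · intro g hg
    have h1 : (fun i => g (e i)) ∈ N₂ := (hN₂ _).2 ⟨g, hg, rfl⟩
    rw [← hws, Submodule.mem_span_range_iff_exists_fun] at h1
    obtain ⟨b, hb⟩ := h1
    have h2 : g - ∑ j, b j • (fun i => D.p1 (f j i)) ∈ N₁ := by
      rw [hN₁]
      refine ⟨N.sub_mem hg (Submodule.sum_mem _ fun j _ => N.smul_mem _ (hp _ (hfN j))), ?_⟩
      intro i
      have h3 := congrFun hb i
      simp only [Finset.sum_apply, Pi.smul_apply, smul_eq_mul, Pi.sub_apply, hu] at h3 ⊢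
      rw [h3, sub_self]
    have h4 : g = (g - ∑ j, b j • (fun i => D.p1 (f j i))) +
        ∑ j, b j • (fun i => D.p1 (f j i)) := by
      rw [sub_add_cancel]
    rw [h4]
    apply Submodule.add_mem
    · rw [← hvs] at h2
      refine Submodule.span_mono ?_ h2
      rintro _ ⟨j, rfl⟩
      exact ⟨Sum.inl j, rfl⟩
    · refine Submodule.sum_mem _ fun j _ => Submodule.smul_mem _ _ (Submodule.subset_span ?_)
      exact ⟨Sum.inr j, rfl⟩

/-- KZ-1 (gluing).  `N ⊆ S^ι` closed under `p1`, `e : ι₂ → ι` coordinates, `N₁ = N ∩ {f ∘ e = 0}`,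
`N₂` = image of `N` under `f ↦ f ∘ e`. -/
theorem Lin.glue {S : Type u} [CommRing S] (D : GrData S) (n : ℕ) :
    ∀ {ι ι₂ : Type} (e : ι₂ → ι)
    (N N₁ : Submodule S (ι → S)) (N₂ : Submodule S (ι₂ → S))
    (_ : ∀ f ∈ N, (fun i => D.p1 (f i)) ∈ N)
    (_ : ∀ f, f ∈ N₁ ↔ f ∈ N ∧ ∀ i, f (e i) = 0)
    (_ : ∀ y, y ∈ N₂ ↔ ∃ f ∈ N, (fun i => f (e i)) = y)
    (_ : Lin D.S1 n ι N₁) (_ : Lin D.S1 n ι₂ N₂), Lin D.S1 n ι N := by
  induction n with
  | zero =>
    intro ι ι₂ e N N₁ N₂ hp hN₁ hN₂ h₁ h₂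
    obtain ⟨κ₁, _, v, hv1, hvs⟩ := h₁
    obtain ⟨κ₂, _, w, hw1, hws⟩ := h₂
    obtain ⟨u, hu1, _, _, hs⟩ := glue_gen D e N N₁ N₂ hp hN₁ hN₂ v w hvs hw1 hws
    refine ⟨κ₁ ⊕ κ₂, inferInstance, Sum.elim v u, ?_, hs⟩
    intro s i
    cases s with
    | inl j => exact hv1 j i
    | inr j => exact hu1 j i
  | succ n ih =>
    intro ι ι₂ e N N₁ N₂ hp hN₁ hN₂ h₁ h₂
    obtain ⟨κ₁, _, v, hv1, hvs, hvK⟩ := h₁
    obtain ⟨κ₂, _, w, hw1, hws, hwK⟩ := h₂
    obtain ⟨u, hu1, huN, hue, hs⟩ := glue_gen D e N N₁ N₂ hp hN₁ hN₂ v w hvs hw1 hws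
    have hV1 : ∀ s i, (Sum.elim v u : κ₁ ⊕ κ₂ → ι → S) s i ∈ D.S1 := by
      intro s i
      cases s with
      | inl j => exact hv1 j i
      | inr j => exact hu1 j i
    refine ⟨κ₁ ⊕ κ₂, inferInstance, Sum.elim v u, hV1, hs, ?_⟩
    have hve : ∀ j i, v j (e i) = 0 := by
      intro j i
      have : v j ∈ N₁ := by
        rw [← hvs]
        exact Submodule.subset_span ⟨j, rfl⟩
      exact ((hN₁ _).1 this).2 i
    refine ih (Sum.inr : κ₂ → κ₁ ⊕ κ₂) (Ker (Sum.elim v u))
      ((Ker v).map (inlMap S κ₁ κ₂)) (Ker w) ?_ ?_ ?_ ?_ hwK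
    · intro f hf
      rw [mem_Ker] at hf ⊢
      intro i
      have h1 := congrArg D.p2 (hf i)
      rw [map_sum, map_zero] at h1
      rw [← h1]
      refine Finset.sum_congr rfl fun s _ => ?_
      rw [mul_comm (f s), D.p2_mul _ (hV1 s i), mul_comm]
    · intro f
      rw [Submodule.mem_map, mem_Ker]
      constructor
      · rintro ⟨a, ha, rfl⟩
        refine ⟨fun i => ?_, fun j => rfl⟩
        rw [Fintype.sum_sum_type]
        have := (mem_Ker v a).1 ha i
        simpa [inlMap_inl, inlMap_inr] using this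
      · rintro ⟨hf, h0⟩
        refine ⟨fun j => f (Sum.inl j), ?_, ?_⟩
        · rw [mem_Ker]
          intro i
          have := hf i
          rw [Fintype.sum_sum_type] at this
          simpa [h0] using this
        · funext s
          cases s with
          | inl j => rfl
          | inr j => exact (h0 j).symm
    · intro y
      rw [mem_Ker]
      constructor
      · intro hy
        have h1 : ∑ j, y j • u j ∈ N₁ := by
          rw [hN₁]
          refine ⟨Submodule.sum_mem _ fun j _ => N.smul_mem _ (huN j), fun i => ?_⟩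
          have := hy i
          simpa [hue] using this
        rw [← hvs, Submodule.mem_span_range_iff_exists_fun] at h1
        obtain ⟨a, ha⟩ := h1
        refine ⟨Sum.elim (-a) y, ?_, rfl⟩
        rw [mem_Ker]
        intro i
        rw [Fintype.sum_sum_type]
        have h2 := congrFun ha i
        simp only [Finset.sum_apply, Pi.smul_apply, smul_eq_mul] at h2
        simp [h2]
      · rintro ⟨f, hf, rfl⟩ i
        have h1 := (mem_Ker _ f).1 hf (e i)
        rw [Fintype.sum_sum_type] at h1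
        simpa [hve, hue] using h1
    · refine Lin.map D.S1 n (Ker v) (inlMap S κ₁ κ₂) ?_ ?_ hvK
      · intro f _ h0
        funext j
        exact congrFun h0 (Sum.inl j)
      · intro f _ h1 s
        cases s with
        | inl j => exact h1 j
        | inr j => exact D.S1.zero_mem

end Pool.Agent.Helper8.KZ
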